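import Pool.Agent.K1H46.CP.Stm
import Pool.Agent.R365.QP.HsumP

/-! # Project CP (MP_6e34ef_nt), piece HGT: the height of a cubic number -/

set_option autoImplicit false

namespace Pool.Agent.K1H89.CP

open NumberField IsDedekindDomain Polynomial Pool.Agent.H691R3 Pool.Agent.R365.QP.HsumAux

/-- the norm of an element of a cubic field which is not rational -/
lemma norm_cubic {K : Type} [Field K] [NumberField K] (h3 : Module.finrank ℚ K = 3) (y : K)
    (hy : ∀ q : ℚ, y ≠ algebraMap ℚ K q) (p q r : ℚ)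
    (h : y ^ 3 + (p : K) * y ^ 2 + (q : K) * y + (r : K) = 0) :
    Algebra.norm ℚ y = -r := by
  have hint : IsIntegral ℚ y := Algebra.IsIntegral.isIntegral y
  have hdeg : (minpoly ℚ y).natDegree = 3 := by
    have h1 : (minpoly ℚ y).natDegree ∣ 3 := by
      rw [← h3]; exact minpoly.degree_dvd hint
    rcases (Nat.dvd_prime Nat.prime_three).1 h1 with h2 | h2
    · exfalso
      obtain ⟨z, hz⟩ := minpoly.natDegree_eq_one_iff.1 h2
      exact hy z hz.symm
    · exact h2
  set P : Cubic ℚ := ⟨1, p, q, r⟩ with hP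
  have hPm : P.toPoly.Monic := Cubic.monic_of_a_eq_one rfl
  have hroot : aeval y P.toPoly = 0 := by
    simp only [Cubic.toPoly, hP, map_add, map_mul, aeval_C, aeval_X, map_pow, map_one, one_mul]
    exact h
  have hPd : P.toPoly.natDegree = 3 := Cubic.natDegree_of_a_ne_zero one_ne_zero
  have hmin : minpoly ℚ y = P.toPoly := by
    refine (Polynomial.eq_of_monic_of_dvd_of_natDegree_le (minpoly.monic hint) hPm
      (minpoly.dvd ℚ y hroot) ?_).symm
    rw [hPd, hdeg]
  have hfr : Module.finrank (IntermediateField.adjoin ℚ {y}) K = 1 := by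
    have h4 : Module.finrank ℚ (IntermediateField.adjoin ℚ {y}) = 3 := by
      rw [IntermediateField.adjoin.finrank hint, hdeg]
    have h5 := Module.finrank_mul_finrank ℚ (IntermediateField.adjoin ℚ {y}) K
    rw [h4, h3] at h5
    omega
  rw [Algebra.norm_eq_norm_adjoin ℚ y, hfr, pow_one]
  have h6 := Algebra.PowerBasis.norm_gen_eq_coeff_zero_minpoly
    (IntermediateField.adjoin.powerBasis hint)
  rw [IntermediateField.adjoin.powerBasis_gen] at h6
  rw [h6, IntermediateField.minpoly_gen, hmin, Cubic.coeff_eq_d]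
  rw [IntermediateField.adjoin.powerBasis_dim, hdeg]
  show (-1 : ℚ) ^ 3 * r = -r
  ring

/-- the finite part of the height of a pair of integers -/
lemma finsum_log_max {K : Type} [Field K] [NumberField K] (α β : 𝓞 K) (hα : α ≠ 0) :
    ∑ᶠ v : HeightOneSpectrum (𝓞 K), Real.log (max (fv v (α : K)) (fv v (β : K))) =
      -Real.log (Ideal.absNorm (Ideal.span {α, β}) : ℝ) := by
  have hne : (![α, β] : Fin 2 → 𝓞 K) ≠ 0 := fun h => hα (congrFun h 0)
  have h := NumberField.absNorm_mul_finprod_finitePlace_eq_one (K := K) hne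
  have hr : Set.range ![α, β] = {α, β} := by
    ext z
    simp only [Set.mem_range, Fin.exists_fin_two, Matrix.cons_val_zero, Matrix.cons_val_one,
      Set.mem_insert_iff, Set.mem_singleton_iff]
    rw [eq_comm, @eq_comm _ β z]
  rw [hr] at h
  have h1 : ∏ᶠ v : FinitePlace K, ⨆ i, v ((![α, β] i : 𝓞 K) : K) =
      ∏ᶠ v : HeightOneSpectrum (𝓞 K), max (fv v (α : K)) (fv v (β : K)) := by
    rw [← finprod_comp_equiv (FinitePlace.equivHeightOneSpectrum (K := K)).symm]
    refine finprod_congr fun v => ?_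
    refine le_antisymm ?_ ?_
    · refine ciSup_le fun i => ?_
      fin_cases i
      · exact le_max_left _ _
      · exact le_max_right _ _
    · refine max_le ?_ ?_
      · exact le_ciSup (f := fun i : Fin 2 =>
          (FinitePlace.equivHeightOneSpectrum (K := K)).symm v ((![α, β] i : 𝓞 K) : K))
          (Set.finite_range _).bddAbove 0
      · exact le_ciSup (f := fun i : Fin 2 =>
          (FinitePlace.equivHeightOneSpectrum (K := K)).symm v ((![α, β] i : 𝓞 K) : K))
          (Set.finite_range _).bddAbove 1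
  rw [h1] at h
  have hαK : (α : K) ≠ 0 := RingOfIntegers.coe_ne_zero_iff.mpr hα
  have hp : ((α : K), (β : K)) ≠ 0 := fun h => hαK (congrArg Prod.fst h)
  have hpos : ∀ v : HeightOneSpectrum (𝓞 K), 0 < max (fv v (α : K)) (fv v (β : K)) := fun v =>
    lt_max_of_lt_left ((fv v).pos hαK)
  set S := (max_support_finite hp).toFinset with hS
  have h2 : ∏ᶠ v : HeightOneSpectrum (𝓞 K), max (fv v (α : K)) (fv v (β : K)) =
      ∏ v ∈ S, max (fv v (α : K)) (fv v (β : K)) := by
    refine finprod_eq_prod_of_mulSupport_subset _ ?_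
    intro v hv
    rw [hS, Set.Finite.coe_toFinset]
    exact hv
  have h3 : ∑ᶠ v : HeightOneSpectrum (𝓞 K), Real.log (max (fv v (α : K)) (fv v (β : K))) =
      ∑ v ∈ S, Real.log (max (fv v (α : K)) (fv v (β : K))) := by
    refine finsum_eq_sum_of_support_subset _ ?_
    intro v hv
    rw [hS, Set.Finite.coe_toFinset]
    simp only [Function.mem_support, Set.mem_ofPred_eq] at hv ⊢
    intro h
    rw [h, Real.log_one] at hv
    exact hv rfl
  rw [h2] at h
  rw [h3, ← Real.log_prod (fun v _ => (hpos v).ne')]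
  have hn : (Ideal.absNorm (Ideal.span {α, β}) : ℝ) ≠ 0 := fun h0 => by
    rw [h0, zero_mul] at h; exact zero_ne_one h
  rw [← Real.log_inv]
  congr 1
  exact eq_inv_of_mul_eq_one_right h

/-- the norm of the ideal generated by `a` and `a x + b` divides `a` -/
lemma absNorm_dvd {K : Type} [Field K] [NumberField K] (h3 : Module.finrank ℚ K = 3) (x : K)
    (hx : ∀ q : ℚ, x ≠ algebraMap ℚ K q) (a b c d : ℤ) (ha : a ≠ 0)
    (h : (a : K) * x ^ 3 + b * x ^ 2 + c * x + d = 0) (hg : Int.gcd a (b * c) = 1) (β : 𝓞 K)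
    (hβ : (β : K) = a * x + b) :
    Ideal.absNorm (Ideal.span {(a : 𝓞 K), β}) ∣ a.natAbs := by
  have haK : (a : K) ≠ 0 := by exact_mod_cast ha
  have hy : ∀ q : ℚ, (β : K) ≠ algebraMap ℚ K q := by
    intro q hq
    refine hx ((q - b) / a) ?_
    rw [map_div₀, map_sub, ← hq, hβ]
    simp only [map_intCast]
    field_simp
    ring
  have hN := norm_cubic h3 (β : K) hy (-2 * b) (b ^ 2 + a * c) (-(a * (b * c - a * d))) (by
    rw [hβ]
    push_cast
    linear_combination (a : K) ^ 2 * h)
  rw [← Algebra.coe_norm_int] at hN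
  have hN' : Algebra.norm ℤ β = a * (b * c - a * d) := by
    have : ((Algebra.norm ℤ β : ℤ) : ℚ) = ((a * (b * c - a * d) : ℤ) : ℚ) := by
      rw [hN]; push_cast; ring
    exact_mod_cast this
  set J := Ideal.span {(a : 𝓞 K), β} with hJ
  have h1 : Ideal.absNorm J ∣ (a * (b * c - a * d)).natAbs := by
    rw [← hN', ← Ideal.absNorm_span_singleton]
    refine Ideal.absNorm_dvd_absNorm_of_le ?_
    rw [Ideal.span_singleton_le_iff_mem]
    exact Ideal.subset_span (by simp)
  have h2 : Ideal.absNorm J ∣ a.natAbs ^ 3 := by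
    have h4 : Ideal.absNorm J ∣ Ideal.absNorm (Ideal.span {(a : 𝓞 K)}) := by
      refine Ideal.absNorm_dvd_absNorm_of_le ?_
      rw [Ideal.span_singleton_le_iff_mem]
      exact Ideal.subset_span (by simp)
    rw [Ideal.absNorm_span_singleton] at h4
    have h5 : Algebra.norm ℤ (a : 𝓞 K) = a ^ 3 := by
      have h6 : (a : 𝓞 K) = algebraMap ℤ (𝓞 K) a := by simp
      rw [h6, Algebra.norm_algebraMap, RingOfIntegers.rank, h3]
    rw [h5, Int.natAbs_pow] at h4
    exact h4
  have h7 : Int.gcd a (b * c - a * d) = 1 := by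
    rw [← hg]
    have : b * c - a * d = b * c + a * (-d) := by ring
    rw [this, Int.gcd_add_mul_left_right]
  have h8 : Nat.Coprime (Ideal.absNorm J) (b * c - a * d).natAbs := by
    refine Nat.Coprime.coprime_dvd_left h2 (Nat.Coprime.pow_left 3 ?_)
    exact h7
  rw [Int.natAbs_mul] at h1
  exact h8.dvd_of_dvd_mul_right h1

/-- archimedean absolute values of a root -/
lemma arch_le {K : Type} [Field K] [NumberField K] (w : InfinitePlace K) (a b c d : ℤ) (x : K)
    (T : ℝ) (hT : 1 ≤ T) (h : (a : K) * x ^ 3 + b * x ^ 2 + c * x + d = 0)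
    (hA : T / 8 ≤ |(a : ℝ)|) (hB : |(b : ℝ)| ≤ T) (hC : |(c : ℝ)| ≤ T) (hD : |(d : ℝ)| ≤ T) :
    max (w x) (w 1) ≤ 24 := by
  rw [map_one]
  refine max_le ?_ (by norm_num)
  by_contra hcon
  push Not at hcon
  have hx1 : 1 ≤ w x := by linarith
  have e : (a : K) * x ^ 3 = -(b * x ^ 2) + (-(c * x) + -(d : K)) := by linear_combination h
  have h1 : w ((a : K) * x ^ 3) ≤ w (b * x ^ 2 : K) + (w (c * x : K) + w (d : K)) := by
    rw [e]
    have f1 := w.1.add_le (-((b : K) * x ^ 2)) (-(c * x) + -(d : K))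
    have f2 := w.1.add_le (-((c : K) * x)) (-(d : K))
    rw [AbsoluteValue.map_neg] at f1 f2
    rw [AbsoluteValue.map_neg] at f2
    exact f1.trans (add_le_add le_rfl f2)
  rw [map_mul, map_mul, map_mul, map_pow, map_pow, w_int, w_int, w_int, w_int] at h1
  set X := w x with hX
  have h2 : T / 8 * X ^ 3 ≤ |(a : ℝ)| * X ^ 3 := mul_le_mul_of_nonneg_right hA (by positivity)
  have h3 : |(b : ℝ)| * X ^ 2 ≤ T * X ^ 2 := mul_le_mul_of_nonneg_right hB (by positivity)
  have h4 : |(c : ℝ)| * X ≤ T * X ^ 2 := by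
    refine (mul_le_mul_of_nonneg_right hC (by positivity)).trans ?_
    refine mul_le_mul_of_nonneg_left ?_ (by linarith)
    nlinarith
  have h5 : |(d : ℝ)| ≤ T * X ^ 2 := by
    refine hD.trans ?_
    have : 1 ≤ X ^ 2 := by nlinarith
    nlinarith
  have h6 : T / 8 * X ^ 3 ≤ 3 * T * X ^ 2 := by linarith
  have h7 : T * X ^ 2 * (X - 24) ≤ 0 := by nlinarith
  have h8 : 0 < T * X ^ 2 := by positivity
  have h9 : 0 < T * X ^ 2 * (X - 24) := mul_pos h8 (by linarith)
  linarith

/-- nonarchimedean absolute values of a root -/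
lemma na_le {K : Type} [Field K] [NumberField K] (v : HeightOneSpectrum (𝓞 K)) (a b c d : ℤ)
    (x : K) (ha : a ≠ 0) (h : (a : K) * x ^ 3 + b * x ^ 2 + c * x + d = 0) :
    max (fv v x) (fv v 1) * max (fv v (a : K)) (fv v (a * x + b : K)) ≤ 1 := by
  have hA := fv_int_le v a
  have hB := fv_int_le v b
  have hC := fv_int_le v c
  have hD := fv_int_le v d
  have f0 : ∀ z : K, 0 ≤ fv v z := fun z => (fv v).nonneg z
  rw [map_one]
  rcases le_total (fv v x) 1 with hx | hx
  · rw [max_eq_right hx, one_mul]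
    refine max_le hA ((fv_na v _ _).trans (max_le ?_ hB))
    rw [map_mul]
    exact mul_le_one₀ hA (f0 _) hx
  · rw [max_eq_left hx]
    have hx0 : x ≠ 0 := by
      rintro rfl
      rw [map_zero] at hx; linarith
    have hpos : 0 < fv v x := by linarith
    have key : fv v (a * x + b : K) * fv v x ≤ 1 := by
      rw [← map_mul]
      have e : ((a : K) * x + b) * x = -(c : K) + -(d * x⁻¹ : K) := by
        field_simp
        linear_combination h
      rw [e]
      refine (fv_na v _ _).trans (max_le ?_ ?_)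
      · rw [AbsoluteValue.map_neg]; exact hC
      · rw [AbsoluteValue.map_neg, map_mul, map_inv₀]
        exact mul_le_one₀ hD (inv_nonneg.2 (f0 _)) (inv_le_one_of_one_le₀ hx)
    have key2 : fv v (a : K) * fv v x ≤ 1 := by
      rw [← map_mul]
      by_contra hcon
      push Not at hcon
      have e : ((a : K) * x) = (-(b : K) + -(c * x⁻¹ : K)) + -(d * x⁻¹ * x⁻¹ : K) := by
        field_simp
        linear_combination h
      have hinv : fv v x⁻¹ ≤ 1 := by
        rw [map_inv₀]; exact inv_le_one_of_one_le₀ hx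
      have h1 : fv v ((a : K) * x) ≤ 1 := by
        rw [e]
        refine (fv_na v _ _).trans (max_le ((fv_na v _ _).trans (max_le ?_ ?_)) ?_)
        · rw [AbsoluteValue.map_neg]; exact hB
        · rw [AbsoluteValue.map_neg, map_mul]
          exact mul_le_one₀ hC (f0 _) hinv
        · rw [AbsoluteValue.map_neg, map_mul, map_mul]
          exact mul_le_one₀ (mul_le_one₀ hD (f0 _) hinv) (f0 _) hinv
      linarith
    rw [mul_comm, max_mul_of_nonneg _ _ hpos.le]
    exact max_le key2 key

lemma integral_root {K : Type} [Field K] [NumberField K] (p q r : ℤ) (y : K)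
    (h : y ^ 3 + (p : K) * y ^ 2 + (q : K) * y + (r : K) = 0) : IsIntegral ℤ y := by
  refine ⟨(⟨1, p, q, r⟩ : Cubic ℤ).toPoly, Cubic.monic_of_a_eq_one rfl, ?_⟩
  simp only [Cubic.toPoly, eval₂_add, eval₂_mul, eval₂_C, eval₂_X, eval₂_pow, map_one, one_mul]
  simp only [eq_intCast]
  exact h

theorem t_HGT : Pool.Agent.K1H46.CP.S_HGT := by
  refine ⟨Real.log 2 + Real.log 24, ?_⟩
  intro K _ _ a b c d x T h3 hx hT h hg hA1 hA2 hB hC hD
  have ha : a ≠ 0 := by
    rintro rfl
    simp only [Int.cast_zero, abs_zero] at hA1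
    linarith
  have haK : (a : K) ≠ 0 := by exact_mod_cast ha
  -- `a x` is integral
  have hint : IsIntegral ℤ ((a : K) * x + b) := by
    refine integral_root (-2 * b) (b ^ 2 + a * c) (-(a * (b * c - a * d))) _ ?_
    push_cast
    linear_combination (a : K) ^ 2 * h
  obtain ⟨β, hβ⟩ : ∃ β : 𝓞 K, (β : K) = a * x + b := ⟨⟨_, hint⟩, rfl⟩
  have hdvd := absNorm_dvd h3 x hx a b c d ha h hg β hβ
  have haO : (a : 𝓞 K) ≠ 0 := by exact_mod_cast ha
  have hfs := finsum_log_max (a : 𝓞 K) β haO
  have hcast : ((a : 𝓞 K) : K) = (a : K) := by simp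
  rw [hcast, hβ] at hfs
  have hnorm : Real.log (Ideal.absNorm (Ideal.span {(a : 𝓞 K), β}) : ℝ) ≤ Real.log T := by
    have h0 : a.natAbs ≠ 0 := Int.natAbs_ne_zero.2 ha
    have h1 : 0 < Ideal.absNorm (Ideal.span {(a : 𝓞 K), β}) :=
      Nat.pos_of_dvd_of_pos hdvd (Nat.pos_of_ne_zero h0)
    refine Real.log_le_log (by exact_mod_cast h1) ?_
    refine le_trans ?_ hA2
    have h2 : (Ideal.absNorm (Ideal.span {(a : 𝓞 K), β}) : ℝ) ≤ (a.natAbs : ℝ) := by
      exact_mod_cast Nat.le_of_dvd (Nat.pos_of_ne_zero h0) hdvd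
    rwa [Nat.cast_natAbs, Int.cast_abs] at h2
  have hx1 : ((x, (1 : K)) : K × K) ≠ 0 := fun h => one_ne_zero (congrArg Prod.snd h)
  have hy1 : (((a : K), (a : K) * x + b) : K × K) ≠ 0 := fun h => haK (congrArg Prod.fst h)
  have s1 := log_max_support_finite (K := K) hx1
  have s2 := log_max_support_finite (K := K) hy1
  have hfin : ∑ᶠ v : HeightOneSpectrum (𝓞 K), Real.log (max (fv v x) (fv v 1)) ≤ Real.log T := by
    refine le_trans ?_ hnorm
    have e : Real.log (Ideal.absNorm (Ideal.span {(a : 𝓞 K), β}) : ℝ) =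
        -∑ᶠ v : HeightOneSpectrum (𝓞 K), Real.log (max (fv v (a : K)) (fv v (a * x + b : K))) := by
      rw [hfs, neg_neg]
    rw [e, ← finsum_neg_distrib]
    refine finsum_le_finsum' s1 ?_ ?_
    · refine s2.subset ?_
      intro v hv
      rw [Function.mem_support] at hv ⊢
      intro h0
      apply hv
      show -Real.log _ = 0
      rw [neg_eq_zero]
      exact h0
    · intro v
      have h1 := na_le v a b c d x ha h
      have p1 : 0 < max (fv v x) (fv v 1) := lt_max_of_lt_right (by rw [map_one]; exact one_pos)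
      have p2 : 0 < max (fv v (a : K)) (fv v (a * x + b : K)) := lt_max_of_lt_left ((fv v).pos haK)
      have h2 := Real.log_le_log (mul_pos p1 p2) h1
      rw [Real.log_mul p1.ne' p2.ne', Real.log_one] at h2
      show Real.log (max (fv v x) (fv v 1)) ≤ -Real.log (max (fv v (a : K)) (fv v (a * x + b : K)))
      linarith
  have harch : ∑ w : InfinitePlace K, (w.mult : ℝ) * Real.log (max (w x) (w 1)) ≤
      Real.log 24 * 3 := by
    have e3 : (3 : ℝ) = ∑ w : InfinitePlace K, (w.mult : ℝ) := by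
      rw [sum_mult, h3]; norm_num
    rw [e3, Finset.mul_sum]
    refine Finset.sum_le_sum fun w _ => ?_
    rw [mul_comm (Real.log 24)]
    refine mul_le_mul_of_nonneg_left ?_ (Nat.cast_nonneg _)
    refine Real.log_le_log (lt_max_of_lt_right (by rw [map_one]; exact one_pos)) ?_
    exact arch_le w a b c d x T hT h hA1 hB hC hD
  have hmain := height_le x
  rw [h3] at hmain
  have hhr : hr (x, (1 : K)) ≤ Real.log 24 * 3 + Real.log T := add_le_add harch hfin
  have hfinal : Pool.Agent.R365.QP.height ![x, 1 - x, -1] * 3 ≤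
      Real.log 2 * 3 + (Real.log 24 * 3 + Real.log T) := by
    have h4 : ((3 : ℕ) : ℝ) = 3 := by norm_num
    rw [h4] at hmain
    linarith
  have hsame : Pool.Agent.K1H46.CP.height ![x, 1 - x, -1] =
      Pool.Agent.R365.QP.height ![x, 1 - x, -1] := rfl
  rw [hsame]
  linarith

end Pool.Agent.K1H89.CP
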